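import Pool.Agent.Helper54.CG.Defs

/-! Goals of the G4 tower (packets CG-...).  Names: `G_...`. -/

namespace Pool.Agent.Helper54.CG

open MvPolynomial Pool.Agent.Helper16.Cusp

/-- Exact identity `M ∘ f = M R³` (weight 18; ring identity after unfolding `pull`, `aeval_X`). -/
def G_MR : Prop := pull pM = pM * pR ^ 3

/-- Chain rule.  Proof: induction on `F` (`MvPolynomial.induction_on`), `dd` is a derivation in its
first argument; see `Pool/Agent/Helper83/Cusp/Vec.lean` for the same lemma for the old map. -/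
def G_CH : Prop := ∀ (F : R) (v u : V), dd (pull F) v u = dd F (phi v) (fun i => dd (ff i) v u)

/-- The Jacobian determinant of `f` is `-9 R²` (ring identity), so `Df` is invertible off `R = 0`:
take `u = adj(J) u' / det J` (or `Matrix.mulVec` surjective for a matrix with non-zero determinant). -/
def G_INV : Prop := ∀ v : V, eval v pR ≠ 0 → ∀ u' : V, ∃ u : V, ∀ i, dd (ff i) v u = u' i

/-- Points of the ramification curve `R = 0` off `M = 0`.  Take `k = ∇A × ∇C` at `v`, explicitly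
`k = (23328c³+1296ab-324a³, -1296b²+11664ac³+432a²b-27a⁴, 1296bc+540a²c)`.
Then `dA(k) = dC(k) = 0`, `dB(k) = 9R²` and `dR(k) = -2239488 M + (18144 b - 1512 a²) R` (polynomial
identities).  So `dR(k) ≠ 0`, `k ≠ 0`, hence the rows `∇A, ∇C` of the Jacobian matrix `J` are
independent.  Last part: `M∘f = M R³` gives `∑ᵢ M_i(phi v) J_i = 0` (three identities, or G_CH + G_MR:
`dd (pull pM) v u = 0` because `R(v) = 0`).  If the gradient `M_i(phi v)` is not zero, then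
`M_1(phi v) ≠ 0` (else `J_0, J_2` dependent); a second relation `∑ g_i J_i = 0` minus
`(g_1/M_1)` times the first is a relation between `J_0, J_2`, so it is trivial: `g = (g_1/M_1) ∇M`. -/
def G_KER : Prop := ∀ v : V, eval v pR = 0 → eval v pM ≠ 0 →
  (∃ k : V, (∀ i, dd (ff i) v k = 0) ∧ dd pR v k ≠ 0) ∧
  ((∃ i, eval (phi v) (pderiv i pM) ≠ 0) → ∀ b : R,
    (∀ u, dd b (phi v) (fun i => dd (ff i) v u) = 0) →
      ∃ l : ℂ, ∀ u', dd b (phi v) u' = l * dd pM (phi v) u')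

/-- Pull back of a cusp where `f` is a local isomorphism: apply `pull` to the normal form
(`pull` is an algebra map, `eval v (pull P) = eval (phi v) P`), the vectors `u, w` are the preimages
under `Df` (G_INV) and G_CH. -/
def G_CC : Prop := ∀ (F : R) (v : V), CuspE F (phi v) → eval v pR ≠ 0 → CuspE (pull F) v

/-- Pull back of a tangency at a ramification point is a cusp:
`(E∘f)(F∘f) = (b∘f)² (β∘f) + R³ (M (α∘f))`, normal form with `a := b∘f`, `b := R`, `β := 0`,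
`γ := M (α∘f)`.  `u := k` of G_KER: `d(b∘f)(k) = db(Df k) = 0`, `dR(k) ≠ 0`.  `w`: if
`d(b∘f) = 0` then by G_KER `db = l dM` at `phi v`, contradiction with the vector of `TanE`. -/
def G_TC : Prop := ∀ (F : R) (v : V), TanE F (phi v) → eval v pR = 0 → eval v pM ≠ 0 →
  (∃ i, eval (phi v) (pderiv i pM) ≠ 0) → CuspE (pull F) v

/-- Pull back of a tangency at a point of `M` off `R`: `(E∘f)(F∘f) = M (R³ (α∘f)) + (b∘f)² (β∘f)`;
`u` with `Df u = u'` (G_INV); `dM(u) R³ = d(M∘f)(u) = dM(Df u) = 0` at a point with `M(v) = 0`. -/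
def G_TT : Prop := ∀ (F : R) (v : V), TanE F (phi v) → eval v pM = 0 → eval v pR ≠ 0 →
  TanE (pull F) v

/-- Weighted scaling.  Proof: `S_t : X_i ↦ C (t^{w_i}) X_i` is an algebra map with
`eval v (S_t P) = eval (wsm t v) P`, `dd (S_t P) v u = dd P (wsm t v) (wsm t u)`, and
`S_t F = t^n F` for `F` weighted homogeneous of degree `n`.  For CuspE: the polynomials at `wsm t v`
are `S_{1/t}` of the given ones (and `E := t^{-n} S_{1/t} E`); for TanE use also `S_t pM = t^6 pM`. -/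
def G_SC : Prop := ∀ (F : R) (n : ℕ) (t : ℂ) (v : V), IsWeightedHomogeneous wt F n → t ≠ 0 →
  (CuspE F v → CuspE F (wsm t v)) ∧ (TanE F v → TanE F (wsm t v)) ∧
  eval (wsm t v) F = t ^ n * eval v F ∧
  ((∃ i, eval v (pderiv i F) ≠ 0) → ∃ i, eval (wsm t v) (pderiv i F) ≠ 0)

/-- The fibre over a point off `M`.  With `p` the unknown first coordinate, `w = α - p`,
`u = 27 - p³`, `D = 8u/(9w)`, `q = (p² - D)/4`: the vector `![p, q, 1]` has
`A = -8p³+9pD+216 = 9Dα`, `C = 9D`, `B = 81 D² β` iff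
`P(p) = 8u³ - 9(p²+12β)u²w + 1458 p u w² + 19683 w³ = 0`, a MONIC polynomial of degree 9.
At a root `p` of `P`: `w ≠ 0` and `p³ ≠ 27` (else `w = u = 0` and `α³ = 27`), `D ≠ 0`, and
`64 D P'(p) = w² R(p,q,1)²` (use `9Dw = 8u` and `D³-(p²+12β)D²+144pD+1728 = 0`).
So a double root has `R(v) = 0`, hence `M(f v) = M(v) R(v)³ = 0`, hence `M(α,β,1) = 0` by scaling:
contradiction.  So `P` has 9 distinct roots (`IsAlgClosed.splits`, `Polynomial.nodup_roots` /
`card_rootSet_eq_natDegree`).  Also `M(v) R(v)³ = M(f v) ≠ 0`. -/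
def G_F9 : Prop := ∀ α β : ℂ, α ^ 3 ≠ 27 → eval ![α, β, 1] pM ≠ 0 →
  ∃ c : Fin 9 → ℂ × ℂ, Function.Injective c ∧ ∀ i, (c i).1 ^ 3 ≠ 27 ∧
    eval ![(c i).1, (c i).2, 1] pM ≠ 0 ∧ eval ![(c i).1, (c i).2, 1] pR ≠ 0 ∧
    ∃ t : ℂ, t ≠ 0 ∧ phi ![(c i).1, (c i).2, 1] = wsm t ![α, β, 1]

/-- The fibre over a point `pt s` of `M`, part on `M`: `r` a root of `4 s r³ - 3 r - s = 0`
(three distinct roots: at a double root `12 s r² = 3`, so `r² = 1/(4s)`, `r(1/1 ·) ...` gives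
`s³ = 1`: from `4sr³ = r` one gets `-2r = s`, then `s³ = 1`).  `v = pt r`,
`D = (1 - 4r³)/r⁴`, `t = 9D`; `4r³ ≠ 1` (else `3r = 0`), `r ≠ 0`, `s = 3r/(4r³-1)`;
`r³ = 1` or `8r³ = -1` would give `s³ = 1`; `R(pt r) = 9 (1+8r³)³/r⁸`. -/
def G_FM3 : Prop := ∀ s : ℂ, s ≠ 0 → s ^ 3 ≠ 1 → 8 * s ^ 3 ≠ -1 →
  ∃ c : Fin 3 → ℂ, Function.Injective c ∧ ∀ i, c i ≠ 0 ∧ c i ^ 3 ≠ 1 ∧ 8 * c i ^ 3 ≠ -1 ∧
    eval (pt (c i)) pR ≠ 0 ∧ ∃ t : ℂ, t ≠ 0 ∧ phi (pt (c i)) = wsm t (pt s)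

/-- The fibre over a point `pt s` of `M`, part on `R`: `p` one of the two roots of
`p² - 6 s p + 9/s = 0` (discriminant `36(s³-1)/s ≠ 0`), `D = 8 s p`, `q = (p² - D)/4`,
`v = ![p, q, 1]`, `t = 9D = 72 s p` (`p ≠ 0`).  Identities modulo the quadratic equation:
`R(v) = 288 p s (p² - 6sp + 9/s) = 0`, `M(v) = 36 (1-s³) (3 - (2s³-1) p/s)`, which is not zero:
`p = 3s/(2s³-1)` in the quadratic gives `1 - s³ = 0`; `p³ = (36s²-9/s)p - 54`, and `p³ = 27` gives
`(1-s³)(1+8s³) = 0`. -/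
def G_FM2 : Prop := ∀ s : ℂ, s ≠ 0 → s ^ 3 ≠ 1 → 8 * s ^ 3 ≠ -1 →
  ∃ c : Fin 2 → ℂ × ℂ, Function.Injective c ∧ ∀ i, (c i).1 ^ 3 ≠ 27 ∧
    eval ![(c i).1, (c i).2, 1] pM ≠ 0 ∧ eval ![(c i).1, (c i).2, 1] pR = 0 ∧
    ∃ t : ℂ, t ≠ 0 ∧ phi ![(c i).1, (c i).2, 1] = wsm t (pt s)

/-- `pt s` is a smooth point of `M = 0` when `s ≠ 0`, `s³ ≠ 1`; moreover the tangent direction in the
chart `c = 1` is `(1, s)`: `M_a + s M_b = 0` there.  (`M_b(pt s) = -4 (s³-1)³/s⁵`:
compute with `field_simp; ring`.) -/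
def G_MS : Prop := ∀ s : ℂ, s ≠ 0 → eval (pt s) pM = 0 ∧
  eval (pt s) (pderiv 0 pM) + s * eval (pt s) (pderiv 1 pM) = 0 ∧
  (s ^ 3 ≠ 1 → eval (pt s) (pderiv 1 pM) ≠ 0)

/-- `f` multiplies weights by 3. -/
def G_HOM : Prop := ∀ (F : R) (n : ℕ), IsWeightedHomogeneous wt F n →
  IsWeightedHomogeneous wt (pull F) (3 * n)

/-- The four conditions along the line `a = 3c`.  `f ![3,β,1] = (3C, B, C)` with `C = 9D`,
`D = 9 - 4β`.  `D = 0` (`β = 9/4`): `B = 11664`, `f = ![0, 11664, 0]`, a scaling (`t² = 11664`) of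
`![0,1,0]`, so `pull F ≠ 0` there.  Otherwise `f = wsm C ![3, β', 1]`, and `pull F = C^n F(3,β',1)`.
`R(3,β,1) = -27·(4β-21)(4β+15)`; `β = 21/4` goes to `β' = -15/4`, `β = -15/4` goes to `β' = 3`,
`β = 3` goes to `3` (so `pull F ≠ 0` at all three); for the other `β`, `Df` is invertible (G_INV), so
the gradient of `pull F` is not zero if that of `F` at `f v` is not (G_CH, G_SC).
`f ![0,1,0] = ![0, -432, 0]`. -/
def G_N : Prop := ∀ (F : R) (n κ τ : ℕ), Lev F n κ τ →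
  (∀ β : ℂ, eval ![3, β, 1] (pull F) = 0 → ∃ i, eval ![3, β, 1] (pderiv i (pull F)) ≠ 0) ∧
  eval ![3, 3, 1] (pull F) ≠ 0 ∧ eval ![3, -15 / 4, 1] (pull F) ≠ 0 ∧
  eval ![0, 1, 0] (pull F) ≠ 0

/-- The step (assembly of all the goals above; the new cusps are indexed by
`Fin κ × Fin 9 ⊕ Fin τ × Fin 2 ≃ Fin (9κ+2τ)`, the new tangencies by `Fin τ × Fin 3 ≃ Fin (3τ)`;
points over different points are different because `f v = wsm t ![α,β,1]` determines `(α,β)`:
`α = (f v)₀/(f v)₂`, `β = (f v)₁/(f v)₂²`, and cusps over cusps have `R ≠ 0`, the others `R = 0`;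
`s` is determined by `pt s` when `s³ ≠ 1`, `s ≠ 0`). -/
def G_STEP : Prop := ∀ (F : R) (n κ τ : ℕ), Lev F n κ τ →
  Lev (pull F) (3 * n) (9 * κ + 2 * τ) (3 * τ)

/-- From a level to the plane: `H(x,y,z) = F(x, z² + λ y², y)` for a general `λ`, variables
`X 0 = x, X 1 = y, X 2 = z`.  See the goals `G_P2a`, `G_P2b`, `G_P2c`. -/
noncomputable def dbl (l : ℂ) (F : R) : R := aeval ![X 0, X 2 ^ 2 + C l * X 1 ^ 2, X 1] F

/-- homogeneity of the plane curve -/
def G_P2a : Prop := ∀ (F : R) (n : ℕ) (l : ℂ), IsWeightedHomogeneous wt F n →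
  (dbl l F).IsHomogeneous n

/-- A cusp of `F` at `![α, β, 1]`, `β ≠ l`, gives an (ordinary) cusp of the plane curve at
`![α, 1, z]`, `z² = β - l`.  Proof: apply the algebra map to the normal form; the Jacobian of
`(x, y, z) ↦ (x, z²+l y², y)` is invertible as `z ≠ 0`; a polynomial with a cusp normal form up to a
unit satisfies `IsCuspVec` (`E H = K`, `K` as in `Pool/Agent/Helper83/Cusp/Vec.lean`; then
`E(v) ≠ 0` and Leibniz: `H(v) = 0`, `∇H = 0`, `Hess K = E Hess H`, `cubic K u = E cubic H u` for `u`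
in the kernel of the Hessian). -/
def G_P2b : Prop := ∀ (F : R) (α β l z : ℂ), CuspE F ![α, β, 1] → β ≠ l → z ^ 2 = β - l →
  IsCuspVec (dbl l F) ![α, 1, z]

/-- The plane curve is reduced for `l` outside a finite set: `H` is smooth along the line `x = 3y`.
At `![3,1,z]`, `z ≠ 0`: from `Lev.smooth` at `β = z² + l` and the invertible Jacobian; at `z = 0`:
`F(3,l,1) ≠ 0` for all but finitely many `l` (`F(3,·,1)` is a polynomial in `l`, not identically
zero by `n3`); at `![0,0,1]`: `F(0,1,0) ≠ 0`.  Then as in `Pool/Agent/Helper83/Cusp/Sqf.lean`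
(restriction `rho` to the line, `natDegree`), with the line `![3,1,t]`. -/
def G_P2c : Prop := ∀ (F : R) (n κ τ : ℕ), Lev F n κ τ →
  ∃ S : Finset ℂ, ∀ l : ℂ, l ∉ S → Squarefree (dbl l F)

/-- From a level to the plane curve (assembly of G_P2a, b, c; `l` avoids `S` and the `β`-coordinates
of the cusps; each cusp gives the two points `z = ± sqrt(β - l)`; distinct because the vectors
`![α, 1, z]` are pairwise non-proportional; `IsCuspVec` is invariant under scaling of the vector for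
a homogeneous polynomial, see `Helper83/Cusp/Vec.lean`). -/
def G_P2 : Prop := ∀ (F : R) (n κ τ : ℕ), Lev F n κ τ →
  ∃ H : MvPolynomial (Fin 3) ℂ, H.IsHomogeneous n ∧ Squarefree H ∧
    ∃ S : Finset (Projectivization ℂ (Fin 3 → ℂ)), (∀ p ∈ S, IsOrdinaryCusp H p) ∧
      S.card = 2 * κ

end Pool.Agent.Helper54.CG
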