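import Pool.Agent.Helper88.CG.Goals
import Pool.Agent.Helper6.RR.BO

/-!
# Packet EB: the conditions given by divisor labels, reduced to progressions
-/

set_option autoImplicit false

open Finset Filter Topology

open scoped Classical

namespace Pool.Agent.Helper54.CG

open Pool.Agent.Helper88.CG
open Pool.Agent.Helper88.PP (pr Rg Sf SS QQ)
open Pool.Agent.Helper88.RR (nz)
open Pool.Agent.Helper88.GM (NI XI)
open Pool.Agent.Helper6.RR (el alt alt_bound el_le)

/-! ### The weight -/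

lemma tw_nonneg (x n : ℕ) : 0 ≤ tw x n := le_max_left _ _

lemma log4 : 0 < Real.log 4 := Real.log_pos (by norm_num)

lemma tw_le (x n : ℕ) : tw x n ≤ 1 := by
  unfold tw
  apply max_le (by norm_num)
  have : 0 ≤ |Real.log (4 * n / x)| / Real.log 4 := div_nonneg (abs_nonneg _) log4.le
  linarith

lemma tw_supp {x n : ℕ} (hx : 0 < x) (hn : 0 < n) (h : tw x n ≠ 0) :
    (x : ℝ) / 16 < n ∧ n < x := by
  have hx' : (0 : ℝ) < x := by exact_mod_cast hx
  have hn' : (0 : ℝ) < n := by exact_mod_cast hn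
  have h1 : |Real.log (4 * n / x)| < Real.log 4 := by
    by_contra h2
    apply h
    unfold tw
    apply max_eq_left
    have h3 : 1 ≤ |Real.log (4 * n / x)| / Real.log 4 := by
      rw [le_div_iff₀ log4]
      linarith [not_lt.1 h2]
    linarith
  rw [abs_lt] at h1
  have hp : (0 : ℝ) < 4 * n / x := by positivity
  constructor
  · have h2 : Real.log (1 / 4) < Real.log (4 * n / x) := by
      rw [Real.log_div (by norm_num) (by norm_num), Real.log_one]
      linarith [h1.1]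
    have h3 : (1 : ℝ) / 4 < 4 * n / x := (Real.log_lt_log_iff (by norm_num) hp).1 h2
    rw [lt_div_iff₀ hx'] at h3
    linarith
  · have h3 : (4 : ℝ) * n / x < 4 := (Real.log_lt_log_iff hp (by norm_num)).1 h1.2
    rw [div_lt_iff₀ hx'] at h3
    have h4 : (n : ℝ) < x := by linarith
    exact_mod_cast h4

lemma pw_supp {x n : ℕ} (hx : 0 < x) (h : pw x n ≠ 0) :
    n.Prime ∧ (x : ℝ) / 16 < n ∧ n < x := by
  unfold pw at h
  split_ifs at h with hp
  · exact ⟨hp, tw_supp hx hp.pos (left_ne_zero_of_mul h)⟩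
  · exact absurd rfl h

lemma pw_nonneg (x n : ℕ) : 0 ≤ pw x n := by
  unfold pw
  split_ifs
  · exact mul_nonneg (tw_nonneg _ _) (div_nonneg (Real.log_natCast_nonneg _)
      (Real.log_natCast_nonneg _))
  · exact le_rfl

lemma pw_le {x : ℕ} (hx : 0 < x) (n : ℕ) : pw x n ≤ 1 := by
  by_cases h : pw x n = 0
  · rw [h]; norm_num
  · obtain ⟨h1, h2, h3⟩ := pw_supp hx h
    unfold pw
    rw [if_pos h1]
    have h4 : (n : ℝ) ≤ x := by exact_mod_cast h3.le
    have h5 : Real.log n ≤ Real.log x := Real.log_le_log (by exact_mod_cast h1.pos) h4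
    have h6 : Real.log n / Real.log x ≤ 1 := div_le_one_of_le₀ h5 (Real.log_natCast_nonneg _)
    have h7 : 0 ≤ Real.log n / Real.log x := div_nonneg (Real.log_natCast_nonneg _)
      (Real.log_natCast_nonneg _)
    calc tw x n * (Real.log n / Real.log x) ≤ 1 * 1 := mul_le_mul (tw_le _ _) h6 h7 (by norm_num)
      _ = 1 := by norm_num

lemma th_class {x j b M c : ℕ} (hx : 0 < x) (hj : (j : ℝ) ≤ x / 32) (hQ : QQ x ∣ M)
    (hc : c % QQ x = b) :
    ∑ n ∈ NI (x / 32) x (QQ x) b, pw x (n + j) * (if n ≡ c [MOD M] then 1 else 0) =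
      th x M (c + j) := by
  unfold th
  have h1 : ∑ n ∈ NI (x / 32) x (QQ x) b, pw x (n + j) * (if n ≡ c [MOD M] then 1 else 0) =
      ∑ n ∈ (NI (x / 32) x (QQ x) b).filter (fun n => n ≡ c [MOD M]), pw x (n + j) := by
    rw [sum_filter]
    apply sum_congr rfl
    intro n _
    split_ifs <;> simp
  rw [h1]
  apply sum_bij_ne_zero (fun n _ _ => n + j)
  · intro n hn h
    rw [mem_filter] at hn
    obtain ⟨h2, h3, h4⟩ := pw_supp hx h
    rw [mem_filter, mem_Icc]
    exact ⟨⟨h2.one_le, h4.le⟩, hn.2.add_right j⟩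
  · intro a _ _ b' _ _ hab
    simpa using hab
  · intro n' hn' h
    obtain ⟨h2, h3, h4⟩ := pw_supp hx h
    rw [mem_filter, mem_Icc] at hn'
    have h5 : (x : ℝ) / 32 + j < n' := by linarith
    have hx' : (0 : ℝ) < x := by exact_mod_cast hx
    have h6 : j < n' := by
      have : (j : ℝ) < n' := by linarith
      exact_mod_cast this
    have h7 : n' - j ≡ c [MOD M] := by
      have h8 : n' - j + j ≡ c + j [MOD M] := by
        rw [Nat.sub_add_cancel h6.le]
        exact hn'.2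
      exact Nat.ModEq.add_right_cancel' j h8
    refine ⟨n' - j, ?_, ?_, Nat.sub_add_cancel h6.le⟩
    · rw [mem_filter]
      refine ⟨?_, h7⟩
      unfold NI
      rw [mem_filter, mem_Ioc]
      refine ⟨⟨?_, by omega⟩, ?_⟩
      · have h8 : ((x / 32 : ℕ) : ℝ) < ((n' - j : ℕ) : ℝ) := by
          rw [Nat.cast_sub h6.le]
          have : ((x / 32 : ℕ) : ℝ) ≤ (x : ℝ) / 32 := Nat.cast_div_le
          linarith
        exact_mod_cast h8
      · rw [← hc]
        exact h7.of_dvd hQ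
    · rw [Nat.sub_add_cancel h6.le]
      exact h
  · intro a _ _
    rfl

/-! ### Congruences -/

lemma crt_one (m t : ℕ) (hm : 0 < m) : ∃ u, ∀ n : ℕ, m ∣ n + t ↔ n ≡ u [MOD m] := by
  refine ⟨(m - 1) * t, fun n => ?_⟩
  have h1 : m ∣ (m - 1) * t + t := by
    obtain ⟨k, rfl⟩ : ∃ k, m = k + 1 := ⟨m - 1, by omega⟩
    refine ⟨t, ?_⟩
    rw [Nat.add_sub_cancel]
    ring
  constructor
  · intro h
    have h2 : n + t ≡ (m - 1) * t + t [MOD m] :=
      (Nat.modEq_zero_iff_dvd.2 h).trans (Nat.modEq_zero_iff_dvd.2 h1).symm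
    exact Nat.ModEq.add_right_cancel' t h2
  · intro h
    exact Nat.modEq_zero_iff_dvd.1 ((h.add_right t).trans (Nat.modEq_zero_iff_dvd.2 h1))

lemma crt_fin {ι : Type*} (s : Finset ι) (m t : ι → ℕ) (hm : ∀ i ∈ s, 0 < m i)
    (hc : ∀ i ∈ s, ∀ j ∈ s, i ≠ j → Nat.Coprime (m i) (m j)) :
    ∃ c, ∀ n : ℕ, (∀ i ∈ s, m i ∣ n + t i) ↔ n ≡ c [MOD ∏ i ∈ s, m i] := by
  induction s using Finset.induction_on with
  | empty => exact ⟨0, fun n => by simp [Nat.modEq_one]⟩
  | insert a s ha ih =>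
    obtain ⟨c, hc1⟩ := ih (fun i hi => hm i (mem_insert_of_mem hi))
      (fun i hi j hj => hc i (mem_insert_of_mem hi) j (mem_insert_of_mem hj))
    obtain ⟨u, hu⟩ := crt_one (m a) (t a) (hm a (mem_insert_self a s))
    have hco : Nat.Coprime (m a) (∏ i ∈ s, m i) := Nat.Coprime.prod_right (fun i hi =>
      hc a (mem_insert_self a s) i (mem_insert_of_mem hi) (by rintro rfl; exact ha hi))
    obtain ⟨v, hv1, hv2⟩ := Nat.chineseRemainder hco u c
    refine ⟨v, fun n => ?_⟩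
    rw [prod_insert ha, ← Nat.modEq_and_modEq_iff_modEq_mul hco, forall_mem_insert, hu, hc1]
    constructor
    · rintro ⟨h1, h2⟩
      exact ⟨h1.trans hv1.symm, h2.trans hv2.symm⟩
    · rintro ⟨h1, h2⟩
      exact ⟨h1.trans hv1, h2.trans hv2⟩

/-- Two conditions. -/
lemma crt_two {m n : ℕ} (h : Nat.Coprime m n) (a b : ℕ) :
    ∃ c, ∀ t, (t ≡ a [MOD m] ∧ t ≡ b [MOD n]) ↔ t ≡ c [MOD m * n] := by
  obtain ⟨v, hv1, hv2⟩ := Nat.chineseRemainder h a b
  refine ⟨v, fun t => ?_⟩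
  rw [← Nat.modEq_and_modEq_iff_modEq_mul h]
  constructor
  · rintro ⟨h1, h2⟩
    exact ⟨h1.trans hv1.symm, h2.trans hv2.symm⟩
  · rintro ⟨h1, h2⟩
    exact ⟨h1.trans hv1, h2.trans hv2⟩

lemma cls {Q b : ℕ} (hb : b < Q) {P : Finset ℕ} (e : P → ℕ) (he : ∀ i, 0 < e i)
    (hec : ∀ i i', i ≠ i' → Nat.Coprime (e i) (e i')) (A : Finset ℕ) (hA : ∀ p ∈ A, p.Prime)
    (hAQ : ∀ p ∈ A, Nat.Coprime Q p) (hQe : ∀ i, Nat.Coprime Q (e i))
    (hAe : ∀ p ∈ A, ∀ i, Nat.Coprime p (e i)) (f : ∀ p ∈ A, P) :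
    ∃ c : ℕ, c % Q = b ∧ (∀ p (hp : p ∈ A), p ∣ c + (f p hp : ℕ)) ∧ (∀ i : P, e i ∣ c + (i : ℕ)) ∧
      (∀ n, n % Q = b → ((∀ p (hp : p ∈ A), p ∣ n + (f p hp : ℕ)) ↔
        n ≡ c [MOD Q * ∏ p ∈ A, p])) ∧
      (∀ n, n % Q = b → (((∀ p (hp : p ∈ A), p ∣ n + (f p hp : ℕ)) ∧ ∀ i : P, e i ∣ n + (i : ℕ)) ↔
        n ≡ c [MOD Q * (∏ p ∈ A, p) * ∏ i, e i])) := by
  obtain ⟨cA, hcA⟩ := crt_fin A.attach (fun p => (p : ℕ)) (fun p => (f p.1 p.2 : ℕ))
    (fun p _ => (hA p.1 p.2).pos) (fun p _ p' _ hne => by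
      rw [Nat.coprime_primes (hA p.1 p.2) (hA p'.1 p'.2)]
      intro h
      exact hne (Subtype.ext h))
  obtain ⟨cD, hcD⟩ := crt_fin (univ : Finset P) e (fun i => (i : ℕ)) (fun i _ => he i)
    (fun i _ i' _ hne => hec i i' hne)
  have hQA : Nat.Coprime Q (∏ p ∈ A, p) := Nat.Coprime.prod_right hAQ
  have hQAD : Nat.Coprime (Q * ∏ p ∈ A, p) (∏ i, e i) := by
    apply Nat.Coprime.prod_right
    intro i _
    exact Nat.Coprime.mul_left (hQe i) (Nat.Coprime.prod_left (fun p hp => hAe p hp i))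
  have hprodA : ∏ p ∈ A.attach, (p : ℕ) = ∏ p ∈ A, p := prod_attach A (fun p => p)
  rw [hprodA] at hcA
  obtain ⟨c1, hc1⟩ := crt_two hQA b cA
  obtain ⟨c, hc⟩ := crt_two hQAD c1 cD
  have h1 : c ≡ c1 [MOD Q * ∏ p ∈ A, p] ∧ c ≡ cD [MOD ∏ i, e i] := (hc c).2 (Nat.ModEq.refl c)
  have h2 : c ≡ b [MOD Q] ∧ c ≡ cA [MOD ∏ p ∈ A, p] := (hc1 c).2 h1.1
  have hbQ : b % Q = b := Nat.mod_eq_of_lt hb
  have hcond : ∀ n, (∀ p (hp : p ∈ A), p ∣ n + (f p hp : ℕ)) ↔ n ≡ cA [MOD ∏ p ∈ A, p] := by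
    intro n
    rw [← hcA]
    constructor
    · intro h p _
      exact h p.1 p.2
    · intro h p hp
      exact h ⟨p, hp⟩ (mem_attach _ _)
  have hcond2 : ∀ n, (∀ i : P, e i ∣ n + (i : ℕ)) ↔ n ≡ cD [MOD ∏ i, e i] := by
    intro n
    rw [← hcD]
    constructor
    · intro h i _
      exact h i
    · intro h i
      exact h i (mem_univ _)
  have hA1 : ∀ n, n % Q = b → ((∀ p (hp : p ∈ A), p ∣ n + (f p hp : ℕ)) ↔
      n ≡ c [MOD Q * ∏ p ∈ A, p]) := by
    intro n hn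
    have hn' : n ≡ b [MOD Q] := by
      show n % Q = b % Q
      rw [hn, hbQ]
    rw [hcond]
    constructor
    · intro h
      exact ((hc1 n).1 ⟨hn', h⟩).trans h1.1.symm
    · intro h
      exact ((hc1 n).2 (h.trans h1.1)).2
  refine ⟨c, ?_, (hcond c).2 h2.2, (hcond2 c).2 h1.2, hA1, ?_⟩
  · have : c % Q = b % Q := h2.1
    rw [this, hbQ]
  · intro n hn
    rw [hA1 n hn, hcond2, ← hc]
    constructor
    · rintro ⟨h3, h4⟩
      exact ⟨h3.trans h1.1, h4⟩
    · rintro ⟨h3, h4⟩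
      exact ⟨h3.trans h1.1.symm, h4⟩

/-- A prime larger than `y` divides at most one `n + i`, `i ∈ [1, y]`. -/
lemma one_pt {p y i j n : ℕ} (hp : y < p) (hi : 1 ≤ i ∧ i ≤ y) (hj : 1 ≤ j ∧ j ≤ y)
    (h1 : p ∣ n + i) (h2 : p ∣ n + j) : i = j := by
  rcases le_total i j with h | h
  · have h3 : p ∣ (n + j) - (n + i) := Nat.dvd_sub h2 h1
    have h4 : (n + j) - (n + i) = j - i := by omega
    rw [h4] at h3
    rcases Nat.eq_zero_or_pos (j - i) with h5 | h5
    · omega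
    · have := Nat.le_of_dvd h5 h3
      omega
  · have h3 : p ∣ (n + i) - (n + j) := Nat.dvd_sub h1 h2
    have h4 : (n + i) - (n + j) = i - j := by omega
    rw [h4] at h3
    rcases Nat.eq_zero_or_pos (i - j) with h5 | h5
    · omega
    · have := Nat.le_of_dvd h5 h3
      omega

/-! ### Bonferroni -/

section bonf

variable {P : Finset ℕ} (B : Finset P) (S : Finset ℕ) (N : Finset ℕ)

/-- the number of the points `i` of `B` with `p ∣ n + i` -/
noncomputable def xx (n p : ℕ) : ℝ := ∑ i ∈ B, if p ∣ n + (i : ℕ) then (1 : ℝ) else 0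

/-- the weighted number of the `n` with `p ∣ n + f p` for all `p ∈ A` -/
noncomputable def Tw (w : ℕ → ℝ) (A : Finset ℕ) (f : ∀ p ∈ A, P) : ℝ :=
  ∑ n ∈ N, w n * ∏ p ∈ A.attach, (if (p : ℕ) ∣ n + (f p.1 p.2 : ℕ) then (1 : ℝ) else 0)

/-- the sum of the `Tw` with `j` primes -/
noncomputable def EE (w : ℕ → ℝ) (j : ℕ) : ℝ :=
  ∑ A ∈ S.powersetCard j, ∑ f ∈ A.pi (fun _ => B), Tw N w A f

lemma sum_el (w : ℕ → ℝ) (j : ℕ) :
    ∑ n ∈ N, w n * el (fun p => xx B n p) j S = EE B S N w j := by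
  unfold el EE Tw
  simp only [mul_sum]
  rw [sum_comm]
  apply sum_congr rfl
  intro A _
  rw [sum_comm]
  apply sum_congr rfl
  intro n _
  unfold xx
  rw [prod_sum, mul_sum]

lemma bonf (w : ℕ → ℝ) (hw : ∀ n, 0 ≤ w n) (hx : ∀ n, ∀ p ∈ S, 0 ≤ xx B n p ∧ xx B n p ≤ 1)
    (r : ℕ) :
    |∑ n ∈ N, w n * ∏ p ∈ S, (1 - xx B n p) - ∑ j ∈ range (r + 1), (-1) ^ j * EE B S N w j| ≤
      EE B S N w (r + 1) := by
  have h1 : ∑ j ∈ range (r + 1), (-1 : ℝ) ^ j * EE B S N w j =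
      ∑ n ∈ N, w n * alt (fun p => xx B n p) r S := by
    unfold alt
    simp only [mul_sum]
    rw [sum_comm]
    apply sum_congr rfl
    intro j _
    rw [← sum_el, mul_sum]
    apply sum_congr rfl
    intro n _
    ring
  rw [h1, ← sum_el, ← sum_sub_distrib]
  refine (abs_sum_le_sum_abs _ _).trans (sum_le_sum fun n _ => ?_)
  rw [← mul_sub, abs_mul, abs_of_nonneg (hw n)]
  exact mul_le_mul_of_nonneg_left (alt_bound S (hx n) r) (hw n)

lemma EE_le (w : ℕ → ℝ) (r : ℕ) (X' Z : ℝ) (hX : 0 ≤ X') (hS : (S.card : ℝ) ≤ Z)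
    (h : ∀ A ∈ S.powersetCard (r + 1), ∀ f : (∀ p ∈ A, P),
      Tw N w A f ≤ X' / ((∏ p ∈ A, p : ℕ) : ℝ) + 1) :
    EE B S N w (r + 1) ≤ X' * (((B.card : ℝ) * ∑ p ∈ S, 1 / (p : ℝ)) ^ (r + 1) /
      (r + 1).factorial) + ((B.card : ℝ) * Z) ^ (r + 1) := by
  have h1 : EE B S N w (r + 1) ≤ ∑ A ∈ S.powersetCard (r + 1),
      (B.card : ℝ) ^ (r + 1) * (X' / ((∏ p ∈ A, p : ℕ) : ℝ) + 1) := by
    unfold EE
    apply sum_le_sum
    intro A hA
    calc ∑ f ∈ A.pi (fun _ => B), Tw N w A f ≤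
          ∑ f ∈ A.pi (fun _ => B), (X' / ((∏ p ∈ A, p : ℕ) : ℝ) + 1) :=
          sum_le_sum (fun f _ => h A hA f)
      _ = _ := by
          rw [sum_const, card_pi, prod_const, (mem_powersetCard.1 hA).2, nsmul_eq_mul]
          push_cast
          ring
  have h2 : ∑ A ∈ S.powersetCard (r + 1), (B.card : ℝ) ^ (r + 1) *
      (X' / ((∏ p ∈ A, p : ℕ) : ℝ) + 1) = X' * ((B.card : ℝ) ^ (r + 1) *
        el (fun p => 1 / (p : ℝ)) (r + 1) S) +
        (B.card : ℝ) ^ (r + 1) * (S.card.choose (r + 1) : ℕ) := by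
    unfold el
    rw [← mul_sum, sum_add_distrib, mul_add]
    congr 1
    · have : ∀ A ∈ S.powersetCard (r + 1), X' / ((∏ p ∈ A, p : ℕ) : ℝ) =
          X' * ∏ p ∈ A, 1 / (p : ℝ) := by
        intro A _
        rw [Nat.cast_prod, prod_div_distrib, prod_const_one]
        ring
      rw [sum_congr rfl this, ← mul_sum]
      ring
    · rw [sum_const, card_powersetCard, nsmul_eq_mul, mul_one]
  rw [h2] at h1
  refine h1.trans (add_le_add ?_ ?_)
  · apply mul_le_mul_of_nonneg_left _ hX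
    have h3 := el_le (x := fun p : ℕ => 1 / (p : ℝ)) S (fun p _ => by positivity) (r + 1)
    calc (B.card : ℝ) ^ (r + 1) * el (fun p => 1 / (p : ℝ)) (r + 1) S ≤
        (B.card : ℝ) ^ (r + 1) * ((∑ p ∈ S, 1 / (p : ℝ)) ^ (r + 1) / (r + 1).factorial) :=
          mul_le_mul_of_nonneg_left h3 (by positivity)
      _ = _ := by rw [mul_pow]; ring
  · rw [mul_pow]
    apply mul_le_mul_of_nonneg_left _ (by positivity)
    calc ((S.card.choose (r + 1) : ℕ) : ℝ) ≤ ((S.card ^ (r + 1) : ℕ) : ℝ) := by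
          exact_mod_cast Nat.choose_le_pow _ _
      _ = (S.card : ℝ) ^ (r + 1) := by push_cast; ring
      _ ≤ Z ^ (r + 1) := pow_le_pow_left₀ (by positivity) hS _

end bonf

/-- counting a class in an interval -/
lemma cnt_le {u v M c : ℕ} (huv : u ≤ v) (hM : 0 < M) :
    (((Ioc u v).filter (fun n => n ≡ c [MOD M])).card : ℝ) ≤ ((v - u : ℕ) : ℝ) / M + 1 := by
  have h1 := Nat.Ioc_filter_modEq_card u v hM c
  have h2 : (((Ioc u v).filter (fun n => n ≡ c [MOD M])).card : ℤ) ≤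
      max (⌊((v : ℚ) - c) / (M : ℚ)⌋ - ⌊((u : ℚ) - c) / (M : ℚ)⌋) 0 := by
    rw [← h1]
  have hM' : (0 : ℚ) < M := by exact_mod_cast hM
  have h3 : ((max (⌊((v : ℚ) - c) / (M : ℚ)⌋ - ⌊((u : ℚ) - c) / (M : ℚ)⌋) 0 : ℤ) : ℚ) ≤
      ((v : ℚ) - u) / M + 1 := by
    push_cast
    apply max_le
    · have h4 := Int.floor_le (((v : ℚ) - c) / (M : ℚ))
      have h5 := Int.lt_floor_add_one (((u : ℚ) - c) / (M : ℚ))
      have h6 : ((v : ℚ) - u) / M = ((v : ℚ) - c) / M - ((u : ℚ) - c) / M := by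
        field_simp
        ring
      rw [h6]
      linarith
    · have h7 : (0 : ℚ) ≤ (v : ℚ) - u := by
        have : (u : ℚ) ≤ v := by exact_mod_cast huv
        linarith
      positivity
  have h4 : (((Ioc u v).filter (fun n => n ≡ c [MOD M])).card : ℚ) ≤
      ((v : ℚ) - u) / M + 1 := le_trans (by exact_mod_cast h2) h3
  have h5 : ((((Ioc u v).filter (fun n => n ≡ c [MOD M])).card : ℚ) : ℝ) ≤
      ((((v : ℚ) - u) / M + 1 : ℚ) : ℝ) := by exact_mod_cast h4
  rw [Nat.cast_sub huv]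
  push_cast at h5
  exact h5

/-! ### The indicator functions -/

section ind

variable {P : Finset ℕ} {B : Finset P} {y z p n : ℕ}

lemma xx_one (hP : P ⊆ Icc 1 y) (hp : y < p) {i : P} (hi : i ∈ B) (h : p ∣ n + (i : ℕ)) :
    xx B n p = 1 := by
  unfold xx
  rw [sum_eq_single i]
  · rw [if_pos h]
  · intro i' _ hne
    rw [if_neg]
    intro h'
    apply hne
    exact Subtype.ext (one_pt hp (mem_Icc.1 (hP i'.2)) (mem_Icc.1 (hP i.2)) h' h)
  · intro h'
    exact absurd hi h'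

lemma xx_zero (h : ∀ i ∈ B, ¬ p ∣ n + (i : ℕ)) : xx B n p = 0 :=
  sum_eq_zero (fun i hi => if_neg (h i hi))

lemma xx_range (hP : P ⊆ Icc 1 y) (hp : y < p) : 0 ≤ xx B n p ∧ xx B n p ≤ 1 := by
  by_cases h : ∃ i ∈ B, p ∣ n + (i : ℕ)
  · obtain ⟨i, hi, h⟩ := h
    rw [xx_one hP hp hi h]
    norm_num
  · rw [xx_zero (fun i hi h' => h ⟨i, hi, h'⟩)]
    norm_num

lemma mem_pr' (hp : p ∈ pr y z) : y < p ∧ p ≤ z ∧ p.Prime := by
  unfold pr at hp
  rw [mem_filter, mem_Ioc] at hp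
  exact ⟨hp.1.1, hp.1.2, hp.2⟩

lemma prod_xx (hP : P ⊆ Icc 1 y) (B : Finset P) (n : ℕ) :
    ∏ p ∈ pr y z, (1 - xx B n p) = if ∀ i ∈ B, Rg y z (n + (i : ℕ)) then 1 else 0 := by
  split_ifs with h
  · apply prod_eq_one
    intro p hp
    rw [xx_zero (fun i hi => h i hi p hp)]
    norm_num
  · have h1 : ∃ i ∈ B, ∃ p ∈ pr y z, p ∣ n + (i : ℕ) := by
      by_contra h2
      apply h
      intro i hi p hp h3
      exact h2 ⟨i, hi, p, hp, h3⟩
    obtain ⟨i, hi, p, hp, h2⟩ := h1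
    apply prod_eq_zero hp
    rw [xx_one hP (mem_pr' hp).1 hi h2]
    norm_num

lemma prod_ic (d : P → ℕ) (n : ℕ) : ∏ i : P, ic y z (d i) (n + (i : ℕ)) =
    (if ∀ i : P, max 1 (d i) ∣ n + (i : ℕ) then 1 else 0) *
      (if ∀ i ∈ univ.filter (fun i : P => d i ≠ 0), Rg y z (n + (i : ℕ)) then 1 else 0) := by
  by_cases h1 : ∀ i : P, max 1 (d i) ∣ n + (i : ℕ)
  · by_cases h2 : ∀ i ∈ univ.filter (fun i : P => d i ≠ 0), Rg y z (n + (i : ℕ))
    · rw [if_pos h1, if_pos h2, mul_one]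
      apply prod_eq_one
      intro i _
      unfold ic
      by_cases h3 : d i = 0
      · rw [if_pos h3]
      · rw [if_neg h3, if_pos]
        refine ⟨?_, h2 i (mem_filter.2 ⟨mem_univ _, h3⟩)⟩
        have := h1 i
        rwa [max_eq_right (Nat.one_le_iff_ne_zero.2 h3)] at this
    · rw [if_neg h2, mul_zero]
      have h3 : ∃ i : P, d i ≠ 0 ∧ ¬ Rg y z (n + (i : ℕ)) := by
        by_contra h4
        apply h2
        intro i hi
        by_contra h5
        exact h4 ⟨i, (mem_filter.1 hi).2, h5⟩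
      obtain ⟨i, h4, h5⟩ := h3
      apply prod_eq_zero (mem_univ i)
      unfold ic
      rw [if_neg h4, if_neg (fun h => h5 h.2)]
  · rw [if_neg h1, zero_mul]
    have h3 : ∃ i : P, ¬ max 1 (d i) ∣ n + (i : ℕ) := by
      by_contra h4
      apply h1
      intro i
      by_contra h5
      exact h4 ⟨i, h5⟩
    obtain ⟨i, h5⟩ := h3
    have h4 : d i ≠ 0 := by
      intro h6
      apply h5
      rw [h6]
      simp
    apply prod_eq_zero (mem_univ i)
    unfold ic
    rw [if_neg h4, if_neg]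
    rintro ⟨h6, -⟩
    apply h5
    rwa [max_eq_right (Nat.one_le_iff_ne_zero.2 h4)]

lemma prod_ic_sg (d : P → ℕ) (n : ℕ) : ∏ i : P, ic y z (sg (d i)) (n + (i : ℕ)) =
      (if ∀ i ∈ univ.filter (fun i : P => d i ≠ 0), Rg y z (n + (i : ℕ)) then 1 else 0) := by
  rw [prod_ic]
  have h1 : ∀ i : P, max 1 (sg (d i)) ∣ n + (i : ℕ) := by
    intro i
    have : max 1 (sg (d i)) = 1 := by
      unfold sg
      split_ifs <;> simp
    rw [this]
    exact one_dvd _
  have h2 : (univ.filter (fun i : P => sg (d i) ≠ 0)) = univ.filter (fun i : P => d i ≠ 0) := by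
    apply filter_congr
    intro i _
    unfold sg
    split_ifs with h3 <;> simp [h3]
  rw [if_pos h1, one_mul, h2]

end ind

lemma th_bound {x j b M c : ℕ} (hx : 0 < x) (hM : 0 < M) :
    ∑ n ∈ NI (x / 32) x (QQ x) b, pw x (n + j) * (if n ≡ c [MOD M] then 1 else 0) ≤
      ((x - x / 32 : ℕ) : ℝ) / M + 1 := by
  calc ∑ n ∈ NI (x / 32) x (QQ x) b, pw x (n + j) * (if n ≡ c [MOD M] then 1 else 0)
      ≤ ∑ n ∈ Ioc (x / 32) x, (if n ≡ c [MOD M] then (1 : ℝ) else 0) := by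
        unfold NI
        rw [sum_filter]
        apply sum_le_sum
        intro n _
        split_ifs
        · rw [mul_one]; exact pw_le hx _
        · simp
        · norm_num
        · norm_num
    _ = (((Ioc (x / 32) x).filter (fun n => n ≡ c [MOD M])).card : ℝ) := by
        rw [sum_ite, sum_const_zero, add_zero, sum_const, nsmul_eq_mul, mul_one]
    _ ≤ _ := cnt_le (Nat.div_le_self _ _) hM

lemma log_sq : ∃ x0 : ℕ, ∀ x : ℕ, x0 ≤ x → Real.log x ^ 2 ≤ (x : ℝ) / 32 := by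
  have h1 := (Real.isLittleO_pow_log_id_atTop (n := 2)).bound (show (0 : ℝ) < 1 / 32 by norm_num)
  have h2 := tendsto_natCast_atTop_atTop.eventually h1
  obtain ⟨x0, hx0⟩ := eventually_atTop.1 h2
  refine ⟨x0, fun x hx => ?_⟩
  have h3 := hx0 x hx
  simp only [Real.norm_eq_abs, id] at h3
  rw [abs_of_nonneg (by positivity), Nat.abs_cast] at h3
  linarith

lemma QQ_pos (x : ℕ) : 0 < QQ x := primorial_pos _

/-- the class of the `n` with `p ∣ n + f p`, shifted by `j` -/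
lemma key {x y z b j : ℕ} (hx : 0 < x) (hlog : Real.log x ≤ y) (hyz : y ≤ z) (hb : b < QQ x)
    (hj : 1 ≤ j ∧ j ≤ y) (hjx : (j : ℝ) ≤ x / 32) {P : Finset ℕ} (hP : P ⊆ Icc 1 y) (hjP : j ∉ P)
    {d : P → ℕ} (hd : ∀ i, d i = 0 ∨ Sf z (d i))
    (hdc : ∀ i i', i ≠ i' → d i ≠ 0 → d i' ≠ 0 → Nat.Coprime (d i) (d i'))
    (hco : Nat.Coprime (b + j) (QQ x)) {A : Finset ℕ} (hA : A ⊆ pr y z) (f : ∀ p ∈ A, P) :
    ∃ a : ℕ, Nat.Coprime a (QQ x * (∏ p ∈ A, p) * ∏ i, max 1 (d i)) ∧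
      Tw (NI (x / 32) x (QQ x) b) (fun n => pw x (n + j) *
        (if ∀ i : P, max 1 (d i) ∣ n + (i : ℕ) then 1 else 0)) A f =
        th x (QQ x * (∏ p ∈ A, p) * ∏ i, max 1 (d i)) a ∧
      Tw (NI (x / 32) x (QQ x) b) (fun n => pw x (n + j)) A f = th x (QQ x * ∏ p ∈ A, p) a ∧
      Tw (NI (x / 32) x (QQ x) b) (fun n => pw x (n + j) *
        (if ∀ i : P, max 1 (d i) ∣ n + (i : ℕ) then 1 else 0)) A f ≤
        ((x - x / 32 : ℕ) : ℝ) / ((QQ x * (∏ p ∈ A, p) * ∏ i, max 1 (d i) : ℕ) : ℝ) + 1 ∧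
      Tw (NI (x / 32) x (QQ x) b) (fun n => pw x (n + j)) A f ≤
        ((x - x / 32 : ℕ) : ℝ) / ((QQ x * ∏ p ∈ A, p : ℕ) : ℝ) + 1 := by
  have hprime : ∀ p ∈ A, p.Prime := fun p hp => (mem_pr' (hA hp)).2.2
  have hpy : ∀ p ∈ A, y < p := fun p hp => (mem_pr' (hA hp)).1
  have hpz : ∀ p ∈ A, p ≤ z := fun p hp => (mem_pr' (hA hp)).2.1
  have hQp : ∀ p : ℕ, p.Prime → p ∣ QQ x → p ≤ y := by
    intro p hp h
    have h1 : p ≤ ⌊Real.log x / 20⌋₊ := hp.dvd_primorial_iff.1 h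
    have h0 : 0 ≤ Real.log (x : ℝ) := Real.log_natCast_nonneg x
    have h2 : ((⌊Real.log x / 20⌋₊ : ℕ) : ℝ) ≤ Real.log x / 20 := Nat.floor_le (by positivity)
    have h3 : (p : ℝ) ≤ y := by
      have : (p : ℝ) ≤ ((⌊Real.log x / 20⌋₊ : ℕ) : ℝ) := by exact_mod_cast h1
      linarith
    exact_mod_cast h3
  have hez : ∀ i : P, ∀ p : ℕ, p.Prime → p ∣ max 1 (d i) → z < p := by
    intro i p hp h
    rcases hd i with h0 | h0
    · rw [h0] at h
      simp only [zero_le, max_eq_left, Nat.dvd_one] at h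
      exact absurd h hp.one_lt.ne'
    · have h1 : d i ≠ 0 := h0.1.ne_zero
      rw [max_eq_right (Nat.one_le_iff_ne_zero.2 h1)] at h
      exact h0.2 p hp h
  have hec : ∀ i i' : P, i ≠ i' → Nat.Coprime (max 1 (d i)) (max 1 (d i')) := by
    intro i i' hne
    by_cases h1 : d i = 0
    · rw [h1]; simp
    · by_cases h2 : d i' = 0
      · rw [h2]; simp
      · rw [max_eq_right (Nat.one_le_iff_ne_zero.2 h1), max_eq_right (Nat.one_le_iff_ne_zero.2 h2)]
        exact hdc i i' hne h1 h2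
  have hAQ : ∀ p ∈ A, Nat.Coprime (QQ x) p := by
    intro p hp
    rw [Nat.coprime_comm, (hprime p hp).coprime_iff_not_dvd]
    intro h
    have h1 := hQp p (hprime p hp) h
    have h2 := hpy p hp
    omega
  have hQe : ∀ i : P, Nat.Coprime (QQ x) (max 1 (d i)) := by
    intro i
    apply Nat.coprime_of_dvd
    intro p hp h1 h2
    have h3 := hQp p hp h1
    have h4 := hez i p hp h2
    omega
  have hAe : ∀ p ∈ A, ∀ i : P, Nat.Coprime p (max 1 (d i)) := by
    intro p hp i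
    rw [(hprime p hp).coprime_iff_not_dvd]
    intro h
    have h1 := hez i p (hprime p hp) h
    have h2 := hpz p hp
    omega
  obtain ⟨c, hc1, hc2, hc3, hc4, hc5⟩ := cls hb (fun i : P => max 1 (d i))
    (fun i => lt_of_lt_of_le one_pos (le_max_left _ _)) hec A hprime hAQ hQe hAe f
  have hD0 : 0 < ∏ i : P, max 1 (d i) := prod_pos (fun i _ =>
    lt_of_lt_of_le one_pos (le_max_left _ _))
  have hA0 : 0 < ∏ p ∈ A, p := prod_pos (fun p hp => (hprime p hp).pos)
  have hM2 : 0 < QQ x * ∏ p ∈ A, p := Nat.mul_pos (QQ_pos x) hA0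
  have hM1 : 0 < QQ x * (∏ p ∈ A, p) * ∏ i, max 1 (d i) := Nat.mul_pos hM2 hD0
  have hcop : Nat.Coprime (c + j) (QQ x * (∏ p ∈ A, p) * ∏ i, max 1 (d i)) := by
    apply Nat.Coprime.mul_right
    · apply Nat.Coprime.mul_right
      · have h1 : (c + j) ≡ b + j [MOD QQ x] := by
          apply Nat.ModEq.add_right
          show c % QQ x = b % QQ x
          rw [hc1, Nat.mod_eq_of_lt hb]
        have h2 := h1.gcd_eq
        unfold Nat.Coprime at hco ⊢
        rw [h2]
        exact hco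
      · apply Nat.Coprime.prod_right
        intro p hp
        rw [Nat.coprime_comm, (hprime p hp).coprime_iff_not_dvd]
        intro h
        have h1 := one_pt (hpy p hp) (mem_Icc.1 (hP (f p hp).2)) hj (hc2 p hp) h
        exact hjP (h1 ▸ (f p hp).2)
    · apply Nat.Coprime.prod_right
      intro i _
      apply Nat.coprime_of_dvd
      intro p hp h1 h2
      have h3 := hez i p hp h2
      have h4 := one_pt (lt_of_le_of_lt hyz h3) (mem_Icc.1 (hP i.2)) hj
        (h2.trans (hc3 i)) h1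
      exact hjP (h4 ▸ i.2)
  have hT1 : Tw (NI (x / 32) x (QQ x) b) (fun n => pw x (n + j) *
      (if ∀ i : P, max 1 (d i) ∣ n + (i : ℕ) then 1 else 0)) A f =
      ∑ n ∈ NI (x / 32) x (QQ x) b, pw x (n + j) *
        (if n ≡ c [MOD QQ x * (∏ p ∈ A, p) * ∏ i, max 1 (d i)] then 1 else 0) := by
    unfold Tw
    apply sum_congr rfl
    intro n hn
    have hnb : n % QQ x = b := (mem_filter.1 hn).2
    rw [prod_ite_zero, prod_const_one, mul_assoc]
    congr 1
    have h5 := hc5 n hnb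
    by_cases h6 : n ≡ c [MOD QQ x * (∏ p ∈ A, p) * ∏ i, max 1 (d i)]
    · obtain ⟨h7, h8⟩ := h5.2 h6
      have h9 : ∀ p ∈ A.attach, (p : ℕ) ∣ n + (f p.1 p.2 : ℕ) := fun p _ => h7 p.1 p.2
      rw [if_pos h6, if_pos h8, if_pos h9, mul_one]
    · rw [if_neg h6]
      by_cases h7 : ∀ i : P, max 1 (d i) ∣ n + (i : ℕ)
      · rw [if_pos h7, one_mul, if_neg]
        intro h8
        exact h6 (h5.1 ⟨fun p hp => h8 ⟨p, hp⟩ (mem_attach _ _), h7⟩)
      · rw [if_neg h7, zero_mul]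
  have hT2 : Tw (NI (x / 32) x (QQ x) b) (fun n => pw x (n + j)) A f =
      ∑ n ∈ NI (x / 32) x (QQ x) b, pw x (n + j) *
        (if n ≡ c [MOD QQ x * ∏ p ∈ A, p] then 1 else 0) := by
    unfold Tw
    apply sum_congr rfl
    intro n hn
    have hnb : n % QQ x = b := (mem_filter.1 hn).2
    rw [prod_ite_zero, prod_const_one]
    congr 1
    have h5 := hc4 n hnb
    by_cases h6 : n ≡ c [MOD QQ x * ∏ p ∈ A, p]
    · have h9 : ∀ p ∈ A.attach, (p : ℕ) ∣ n + (f p.1 p.2 : ℕ) := fun p _ => h5.2 h6 p.1 p.2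
      rw [if_pos h6, if_pos h9]
    · rw [if_neg h6, if_neg]
      intro h8
      exact h6 (h5.1 (fun p hp => h8 ⟨p, hp⟩ (mem_attach _ _)))
  refine ⟨c + j, hcop, ?_, ?_, ?_, ?_⟩
  · rw [hT1]
    exact th_class hx hjx (Dvd.intro _ (mul_assoc _ _ _).symm) hc1
  · rw [hT2]
    exact th_class hx hjx (Dvd.intro _ rfl) hc1
  · rw [hT1]
    exact th_bound hx hM1
  · rw [hT2]
    exact th_bound hx hM2

lemma sum_card_le (S : Finset ℕ) (r : ℕ) (F : Finset ℕ → ℝ) :
    ∑ j ∈ range (r + 1), ∑ A ∈ S.powersetCard j, F A =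
      ∑ A ∈ S.powerset.filter (fun A => A.card ≤ r), F A := by
  rw [← sum_fiberwise_of_maps_to (s := S.powerset.filter (fun A => A.card ≤ r))
    (t := range (r + 1)) (g := card) (f := F)]
  · apply sum_congr rfl
    intro j hj
    rw [mem_range] at hj
    apply sum_congr _ (fun _ _ => rfl)
    ext A
    rw [mem_powersetCard, mem_filter, mem_filter, mem_powerset]
    constructor
    · rintro ⟨h1, h2⟩
      exact ⟨⟨h1, by omega⟩, h2⟩
    · rintro ⟨⟨h1, -⟩, h2⟩
      exact ⟨h1, h2⟩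
  · intro A hA
    rw [mem_filter] at hA
    rw [mem_range]
    omega

/-- **Packet EB.** -/
theorem eb : StmtEB := by
  obtain ⟨x0, hx0⟩ := log_sq
  refine ⟨max x0 1, ?_⟩
  intro x y z b j r hx hy1 hy2 hyz hb hj P hP hjP d hd hdc hlarge
  have hx1 : 0 < x := lt_of_lt_of_le one_pos ((le_max_right _ _).trans hx)
  rw [mem_Icc] at hj
  have hjx : (j : ℝ) ≤ x / 32 := by
    have h1 := hx0 x ((le_max_left _ _).trans hx)
    have h2 : (j : ℝ) ≤ y := by exact_mod_cast hj.2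
    linarith
  set N := NI (x / 32) x (QQ x) b with hN
  set D : ℕ := ∏ i : P, max 1 (d i) with hD
  have hD0 : 0 < D := prod_pos (fun i _ => lt_of_lt_of_le one_pos (le_max_left _ _))
  have hΦ0 : 0 < Nat.totient D := Nat.totient_pos.2 hD0
  have hΦ1 : (1 : ℝ) ≤ (Nat.totient D : ℝ) := by exact_mod_cast hΦ0
  have hΦD : (Nat.totient D : ℝ) ≤ D := by exact_mod_cast Nat.totient_le D
  have hΦpos : (0 : ℝ) < (Nat.totient D : ℝ) := by linarith
  have hXI : 0 ≤ XI (x / 32) x (QQ x) := by unfold XI; positivity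
  by_cases hco : Nat.Coprime (b + j) (QQ x)
  swap
  · -- no primes at all
    have hz : ∀ d' : P → ℕ, CN x y z j N d' = 0 := by
      intro d'
      unfold CN
      apply sum_eq_zero
      intro n hn
      have h0 : pw x (n + j) = 0 := by
        by_contra h1
        obtain ⟨h2, -, -⟩ := pw_supp hx1 h1
        apply hco
        rw [Nat.coprime_comm]
        apply Nat.coprime_of_dvd
        intro p hp h3 h4
        have hn' := mem_filter.1 hn
        have h5 : p ∣ n + j := by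
          have h6 : n + j ≡ b + j [MOD p] := by
            apply Nat.ModEq.add_right
            have h7 : n ≡ b [MOD QQ x] := by
              show n % QQ x = b % QQ x
              rw [hn'.2, Nat.mod_eq_of_lt hb]
            exact h7.of_dvd h3
          exact (h6.dvd_iff (dvd_refl p)).2 h4
        rcases (Nat.dvd_prime h2).1 h5 with h6 | h6
        · exact hp.one_lt.ne' h6
        · have h7 := Nat.le_of_dvd (QQ_pos x) h3
          have h8 := (mem_Ioc.1 hn'.1).1
          have h9 : QQ x ≤ x / 32 := by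
            refine le_trans ?_ hlarge
            rw [mul_assoc]
            apply Nat.le_mul_of_pos_right
            have hz0 : 0 < z := by omega
            positivity
          omega
      rw [h0, zero_mul]
    refine ⟨fun _ => 1, fun A _ => Nat.coprime_one_left _, ?_⟩
    rw [hz, hz, zero_div, sub_zero, abs_zero]
    have h1 : 0 ≤ ∑ p ∈ pr y z, 1 / (p : ℝ) := sum_nonneg (fun p _ => by positivity)
    apply add_nonneg (add_nonneg _ _) (by positivity)
    · apply sum_nonneg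
      intro A _
      positivity
    · positivity
  · set S := pr y z with hS
    set B : Finset P := univ.filter (fun i : P => d i ≠ 0) with hB
    have hk : nz d = B.card := rfl
    set w1 : ℕ → ℝ := fun n => pw x (n + j) *
      (if ∀ i : P, max 1 (d i) ∣ n + (i : ℕ) then 1 else 0) with hw1
    set w2 : ℕ → ℝ := fun n => pw x (n + j) with hw2
    have hkey : ∀ A : Finset ℕ, A ⊆ S → ∀ f : (∀ p ∈ A, P), _ := fun A hA f =>
      key hx1 hy1 hyz hb hj hjx hP hjP hd hdc hco hA f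
    have hCN1 : CN x y z j N d = ∑ n ∈ N, w1 n * ∏ p ∈ S, (1 - xx B n p) := by
      unfold CN
      apply sum_congr rfl
      intro n _
      rw [prod_ic, prod_xx hP, hw1, mul_assoc]
    have hCN2 : CN x y z j N (fun i => sg (d i)) = ∑ n ∈ N, w2 n * ∏ p ∈ S, (1 - xx B n p) := by
      unfold CN
      apply sum_congr rfl
      intro n _
      rw [prod_ic_sg, prod_xx hP]
    have hxx : ∀ n, ∀ p ∈ S, 0 ≤ xx B n p ∧ xx B n p ≤ 1 := fun n p hp =>
      xx_range hP (mem_pr' hp).1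
    have hw1' : ∀ n, 0 ≤ w1 n := by
      intro n
      apply mul_nonneg (pw_nonneg _ _)
      split_ifs <;> norm_num
    have hw2' : ∀ n, 0 ≤ w2 n := fun n => pw_nonneg _ _
    have e1 := bonf B S N w1 hw1' hxx r
    have e2 := bonf B S N w2 hw2' hxx r
    rw [← hCN1] at e1
    rw [← hCN2] at e2
    -- the worst functions
    have ha : ∀ A : Finset ℕ, ∃ a : ℕ, A ⊆ S → (Nat.Coprime a (QQ x * (∏ p ∈ A, p) * D) ∧
        ∀ f ∈ A.pi (fun _ => B), |Tw N w1 A f - Tw N w2 A f / (Nat.totient D : ℝ)| ≤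
          |th x (QQ x * (∏ p ∈ A, p) * D) a - th x (QQ x * ∏ p ∈ A, p) a /
            (Nat.totient D : ℝ)|) := by
      intro A
      by_cases hA : A ⊆ S
      · by_cases hne : (A.pi (fun _ => B)).Nonempty
        · obtain ⟨f0, hf0, hmax⟩ := exists_max_image (A.pi (fun _ => B))
            (fun f => |Tw N w1 A f - Tw N w2 A f / (Nat.totient D : ℝ)|) hne
          obtain ⟨a, h1, h2, h3, -, -⟩ := hkey A hA f0
          refine ⟨a, fun _ => ⟨h1, fun f hf => ?_⟩⟩
          have h4 := hmax f hf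
          rw [← h2, ← h3]
          exact h4
        · refine ⟨1, fun _ => ⟨Nat.coprime_one_left _, fun f hf => ?_⟩⟩
          exact absurd ⟨f, hf⟩ hne
      · exact ⟨1, fun h => absurd h hA⟩
    choose a ha using ha
    refine ⟨a, fun A hA => (ha A hA).1, ?_⟩
    have e3 : |∑ j' ∈ range (r + 1), (-1) ^ j' * EE B S N w1 j' -
        (∑ j' ∈ range (r + 1), (-1) ^ j' * EE B S N w2 j') / (Nat.totient D : ℝ)| ≤
        ∑ A ∈ S.powerset.filter (fun A => A.card ≤ r), (nz d : ℝ) ^ A.card *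
          |th x (QQ x * (∏ p ∈ A, p) * D) (a A) - th x (QQ x * ∏ p ∈ A, p) (a A) /
            (Nat.totient D : ℝ)| := by
      rw [← sum_card_le, sum_div, ← sum_sub_distrib]
      refine (abs_sum_le_sum_abs _ _).trans (sum_le_sum fun j' _ => ?_)
      have h1 : (-1 : ℝ) ^ j' * EE B S N w1 j' - (-1) ^ j' * EE B S N w2 j' /
          (Nat.totient D : ℝ) = (-1) ^ j' * ∑ A ∈ S.powersetCard j', ∑ f ∈ A.pi (fun _ => B),
            (Tw N w1 A f - Tw N w2 A f / (Nat.totient D : ℝ)) := by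
        unfold EE
        simp only [sum_sub_distrib, ← sum_div]
        ring
      rw [h1, abs_mul, abs_pow, abs_neg, abs_one, one_pow, one_mul]
      refine (abs_sum_le_sum_abs _ _).trans (sum_le_sum fun A hA => ?_)
      have hA' := mem_powersetCard.1 hA
      refine (abs_sum_le_sum_abs _ _).trans ?_
      refine (sum_le_sum (fun f hf => (ha A hA'.1).2 f hf)).trans (le_of_eq ?_)
      rw [sum_const, card_pi, prod_const, nsmul_eq_mul, hk]
      push_cast
      rfl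
    have hScard : (S.card : ℝ) ≤ z := by
      have : S.card ≤ z := by
        calc S.card ≤ (Ioc y z).card := card_filter_le _ _
          _ = z - y := Nat.card_Ioc _ _
          _ ≤ z := Nat.sub_le _ _
      exact_mod_cast this
    have hQ0 : (0 : ℝ) < (QQ x : ℝ) := by exact_mod_cast QQ_pos x
    have hDr : (0 : ℝ) < (D : ℝ) := by exact_mod_cast hD0
    have e4 := EE_le B S N w1 r (XI (x / 32) x (QQ x) / D) z (by positivity) hScard
      (fun A hA f => by
        obtain ⟨a', -, -, -, h4, -⟩ := hkey A (mem_powersetCard.1 hA).1 f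
        refine h4.trans (le_of_eq ?_)
        unfold XI
        rw [← hD, Nat.cast_mul, Nat.cast_mul, div_div, div_div]
        congr 2
        ring)
    have e5 := EE_le B S N w2 r (XI (x / 32) x (QQ x)) z hXI hScard
      (fun A hA f => by
        obtain ⟨a', -, -, -, -, h5⟩ := hkey A (mem_powersetCard.1 hA).1 f
        refine h5.trans (le_of_eq ?_)
        unfold XI
        push_cast
        rw [div_div])
    set G : ℝ := (((B.card : ℝ) * ∑ p ∈ S, 1 / (p : ℝ)) ^ (r + 1) / (r + 1).factorial) with hG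
    have hG0 : 0 ≤ G := by
      have h1 : 0 ≤ ∑ p ∈ S, 1 / (p : ℝ) := sum_nonneg (fun p _ => by positivity)
      positivity
    have hZ0 : 0 ≤ ((B.card : ℝ) * z) ^ (r + 1) := by positivity
    have e6 : XI (x / 32) x (QQ x) / D * G ≤ XI (x / 32) x (QQ x) / (Nat.totient D : ℝ) * G := by
      apply mul_le_mul_of_nonneg_right _ hG0
      exact div_le_div_of_nonneg_left hXI hΦpos hΦD
    have e7 : EE B S N w2 (r + 1) / (Nat.totient D : ℝ) ≤
        XI (x / 32) x (QQ x) / (Nat.totient D : ℝ) * G + ((B.card : ℝ) * z) ^ (r + 1) := by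
      calc EE B S N w2 (r + 1) / (Nat.totient D : ℝ) ≤
            (XI (x / 32) x (QQ x) * G + ((B.card : ℝ) * z) ^ (r + 1)) / (Nat.totient D : ℝ) :=
            div_le_div_of_nonneg_right e5 hΦpos.le
        _ = XI (x / 32) x (QQ x) / (Nat.totient D : ℝ) * G +
            ((B.card : ℝ) * z) ^ (r + 1) / (Nat.totient D : ℝ) := by ring
        _ ≤ _ := by
          have := div_le_self hZ0 hΦ1
          linarith
    have e8 : |(CN x y z j N (fun i => sg (d i)) -
        ∑ j' ∈ range (r + 1), (-1) ^ j' * EE B S N w2 j') / (Nat.totient D : ℝ)| ≤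
        EE B S N w2 (r + 1) / (Nat.totient D : ℝ) := by
      rw [abs_div, abs_of_pos hΦpos]
      exact div_le_div_of_nonneg_right e2 hΦpos.le
    have e9 : CN x y z j N d - CN x y z j N (fun i => sg (d i)) / (Nat.totient D : ℝ) =
        (CN x y z j N d - ∑ j' ∈ range (r + 1), (-1) ^ j' * EE B S N w1 j') +
        (∑ j' ∈ range (r + 1), (-1) ^ j' * EE B S N w1 j' -
          (∑ j' ∈ range (r + 1), (-1) ^ j' * EE B S N w2 j') / (Nat.totient D : ℝ)) -
        (CN x y z j N (fun i => sg (d i)) -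
          ∑ j' ∈ range (r + 1), (-1) ^ j' * EE B S N w2 j') / (Nat.totient D : ℝ) := by
      ring
    rw [e9]
    have e10 : ∀ u v w : ℝ, |u + v - w| ≤ |u| + |v| + |w| := by
      intro u v w
      calc |u + v - w| ≤ |u + v| + |w| := abs_sub _ _
        _ ≤ _ := by linarith [abs_add_le u v]
    refine (e10 _ _ _).trans ?_
    rw [hk] at e3 ⊢
    rw [← hG]
    have e11 : 2 * XI (x / 32) x (QQ x) / (Nat.totient D : ℝ) * G =
        XI (x / 32) x (QQ x) / (Nat.totient D : ℝ) * G +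
          XI (x / 32) x (QQ x) / (Nat.totient D : ℝ) * G := by ring
    rw [e11]
    linarith

end Pool.Agent.Helper54.CG
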