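import Pool.Agent.Helper16.Cusp.Loc

/-!
MP_c70db9_ag, the G4 tower.  Weighted plane P(1,1,2) with coordinates `a = X 0` (weight 1), `b = X 1`
(weight 2), `c = X 2` (weight 1); a point with `c ≠ 0` is represented by the vector `![α, β, 1]`.
-/

namespace Pool.Agent.Helper54.CG

open MvPolynomial Pool.Agent.Helper16.Cusp

/-- the weights -/
def wt : Fin 3 → ℕ := ![1, 2, 1]

/-- weighted scaling of vectors -/
def wsm (t : ℂ) (v : V) : V := ![t * v 0, t ^ 2 * v 1, t * v 2]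

/-- `D = a² - 4b` -/
noncomputable def pD : R := X 0 ^ 2 - 4 * X 1

/-- first component of the map, weight 3 -/
noncomputable def pA : R := X 0 ^ 3 - 36 * X 0 * X 1 + 216 * X 2 ^ 3

/-- second component of the map, weight 6 -/
noncomputable def pB : R :=
  -27 * X 1 * (X 0 ^ 2 - 4 * X 1) ^ 2 + 972 * X 2 ^ 3 * (X 0 ^ 3 - 4 * X 0 * X 1 + 12 * X 2 ^ 3)

/-- third component of the map, weight 3 -/
noncomputable def pC : R := 9 * X 2 * (X 0 ^ 2 - 4 * X 1)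

/-- the self map `f` of the weighted plane -/
noncomputable def ff : Fin 3 → R := ![pA, pB, pC]

/-- the four-cuspidal sextic -/
noncomputable def pM : R :=
  X 0 ^ 2 * X 1 ^ 2 - 4 * X 1 ^ 3 - 4 * X 0 ^ 3 * X 2 ^ 3 + 18 * X 0 * X 1 * X 2 ^ 3 - 27 * X 2 ^ 6

/-- the ramification curve -/
noncomputable def pR : R :=
  9 * (X 0 ^ 4 + 8 * X 0 ^ 2 * X 1 - 48 * X 1 ^ 2 + 288 * X 0 * X 2 ^ 3)

/-- pull back of a curve under `f` -/
noncomputable def pull (F : R) : R := aeval ff F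

/-- the map `f` on vectors -/
noncomputable def phi (v : V) : V := fun i => eval v (ff i)

/-- the point of `M = 0` with parameter `s` (chart `c = 1`) -/
noncomputable def pt (s : ℂ) : V := ![2 * s + 1 / s ^ 2, s ^ 2 + 2 / s, 1]

/-- cusp normal form at `v` up to a unit `E` -/
def CuspE (F : R) (v : V) : Prop :=
  ∃ E a b α β γ : R, E * F = a ^ 2 * α + a * b ^ 2 * β + b ^ 3 * γ ∧ eval v E ≠ 0 ∧ eval v a = 0 ∧
    eval v b = 0 ∧ eval v α ≠ 0 ∧ eval v γ ≠ 0 ∧ (∃ u : V, dd a v u = 0 ∧ dd b v u ≠ 0) ∧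
    ∃ w : V, dd a v w ≠ 0

/-- simple tangency with `M = 0` at `v`, up to a unit `E` -/
def TanE (F : R) (v : V) : Prop :=
  ∃ E α b β : R, E * F = pM * α + b ^ 2 * β ∧ eval v E ≠ 0 ∧ eval v pM = 0 ∧ eval v b = 0 ∧
    eval v α ≠ 0 ∧ eval v β ≠ 0 ∧ ∃ u : V, dd pM v u = 0 ∧ dd b v u ≠ 0

/-- A level of the tower: weighted degree `n`, `κ` known cusps off `M c (a³-27c³) = 0`, `τ` known
simple tangencies with `M = 0`; the last conditions make the curve smooth along the line `a = 3c`. -/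
structure Lev (F : R) (n κ τ : ℕ) : Prop where
  homog : IsWeightedHomogeneous wt F n
  smooth : ∀ β : ℂ, eval ![3, β, 1] F = 0 → ∃ i, eval ![3, β, 1] (pderiv i F) ≠ 0
  n3 : eval ![3, 3, 1] F ≠ 0
  n15 : eval ![3, -15 / 4, 1] F ≠ 0
  nb : eval ![0, 1, 0] F ≠ 0
  cusp : ∃ c : Fin κ → ℂ × ℂ, Function.Injective c ∧ ∀ i, CuspE F ![(c i).1, (c i).2, 1] ∧
    (c i).1 ^ 3 ≠ 27 ∧ eval ![(c i).1, (c i).2, 1] pM ≠ 0
  tan : ∃ s : Fin τ → ℂ, Function.Injective s ∧ ∀ i, TanE F (pt (s i)) ∧ s i ≠ 0 ∧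
    s i ^ 3 ≠ 1 ∧ 8 * s i ^ 3 ≠ -1

end Pool.Agent.Helper54.CG
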