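import Mathlib

/-!
Certified zeros of polynomial systems over ℂ (Krawczyk / Newton-Kantorovich) with integer
(fixed point) ball arithmetic, to be checked with `decide +kernel`.
-/

namespace Pool.Agent.Helper54.CG.NK

/-- expressions in the unknowns `x 0, x 1, ...` with Gaussian integer constants -/
inductive Ex where
  | k (a b : ℤ) : Ex
  | x (i : ℕ) : Ex
  | add (e f : Ex) : Ex
  | mul (e f : Ex) : Ex
  | pow (e : Ex) (n : ℕ) : Ex

/-- value of an expression -/
noncomputable def Ex.eval (v : ℕ → ℂ) : Ex → ℂ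
  | .k a b => (a : ℂ) + (b : ℂ) * Complex.I
  | .x i => v i
  | .add e f => e.eval v + f.eval v
  | .mul e f => e.eval v * f.eval v
  | .pow e n => e.eval v ^ n

/-- smart sum (removes zeros) -/
def addS : Ex → Ex → Ex
  | .k 0 0, f => f
  | e, .k 0 0 => e
  | e, f => .add e f

/-- smart product (removes zeros and ones) -/
def mulS : Ex → Ex → Ex
  | .k 0 0, _ => .k 0 0
  | _, .k 0 0 => .k 0 0
  | .k 1 0, f => f
  | e, .k 1 0 => e
  | e, f => .mul e f

/-- smart power -/
def powS : Ex → ℕ → Ex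
  | _, 0 => .k 1 0
  | e, 1 => e
  | .k 1 0, _ => .k 1 0
  | e, n => .pow e n

/-- partial derivative with respect to `x j` -/
def der (j : ℕ) : Ex → Ex
  | .k _ _ => .k 0 0
  | .x i => if i = j then .k 1 0 else .k 0 0
  | .add e f => addS (der j e) (der j f)
  | .mul e f => addS (mulS (der j e) f) (mulS e (der j f))
  | .pow _ 0 => .k 0 0
  | .pow e (n + 1) => mulS (mulS (.k (n + 1) 0) (powS e n)) (der j e)

/-- a ball: centre `(re + im I)/2^p`, radius `rad/2^p` -/
structure Ball where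
  re : ℤ
  im : ℤ
  rad : ℕ

/-- membership in a ball at precision `p` -/
def Ball.Mem (p : ℕ) (b : Ball) (z : ℂ) : Prop :=
  ‖(2 : ℂ) ^ p * z - ((b.re : ℂ) + (b.im : ℂ) * Complex.I)‖ ≤ (b.rad : ℝ)

/-- sum of balls (exact) -/
def Ball.add (a b : Ball) : Ball := ⟨a.re + b.re, a.im + b.im, a.rad + b.rad⟩

/-- product of balls at precision `p`; the centre is rounded down (error at most 2) -/
def Ball.mul (p : ℕ) (a b : Ball) : Ball :=
  ⟨(a.re * b.re - a.im * b.im) / 2 ^ p, (a.re * b.im + a.im * b.re) / 2 ^ p,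
    ((a.re.natAbs + a.im.natAbs) * b.rad + (b.re.natAbs + b.im.natAbs) * a.rad
      + a.rad * b.rad) / 2 ^ p + 3⟩

/-- power of a ball -/
def Ball.pow (p : ℕ) (a : Ball) : ℕ → Ball
  | 0 => ⟨2 ^ p, 0, 0⟩
  | 1 => a
  | n + 2 => Ball.mul p (Ball.pow p a (n + 1)) a

/-- ball evaluation of an expression, the unknowns ranging over the balls `X i` -/
def Ex.ball (p : ℕ) (X : ℕ → Ball) : Ex → Ball
  | .k a b => ⟨a * 2 ^ p, b * 2 ^ p, 0⟩
  | .x i => X i
  | .add e f => Ball.add (e.ball p X) (f.ball p X)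
  | .mul e f => Ball.mul p (e.ball p X) (f.ball p X)
  | .pow e n => Ball.pow p (e.ball p X) n

/-- the ball with a given list of centres (0 beyond the list) and common radius `r` -/
def boxOf (x0 : List (ℤ × ℤ)) (r : ℕ) (i : ℕ) : Ball :=
  match x0[i]? with
  | some c => ⟨c.1, c.2, r⟩
  | none => ⟨0, 0, 0⟩

/-- the point in ℂ with given centres -/
noncomputable def centre (p : ℕ) (x0 : List (ℤ × ℤ)) (i : ℕ) : ℂ :=
  match x0[i]? with
  | some c => ((c.1 : ℂ) + (c.2 : ℂ) * Complex.I) / 2 ^ p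
  | none => 0

/-- `∑ aᵢ bᵢ` for two lists of Gaussian integers -/
def cdot : List (ℤ × ℤ) → List (ℤ × ℤ) → ℤ × ℤ
  | [], _ => (0, 0)
  | _, [] => (0, 0)
  | a :: as, b :: bs =>
    let r := cdot as bs
    (a.1 * b.1 - a.2 * b.2 + r.1, a.1 * b.2 + a.2 * b.1 + r.2)

/-- `∑ |aᵢ| rᵢ`, with `|a| ≤ |re| + |im|` -/
def rdot : List (ℤ × ℤ) → List ℕ → ℕ
  | [], _ => 0
  | _, [] => 0
  | a :: as, b :: bs => (a.1.natAbs + a.2.natAbs) * b + rdot as bs

/-- value test for the row `a` of `A` (units `2^(-q)`): `|∑ a_j P_j(x0)| ≤ ρ/2` -/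
def testVal (q : ℕ) (rho : ℕ) (vm : List (ℤ × ℤ)) (vr : List ℕ) (a : List (ℤ × ℤ)) : Bool :=
  let s := cdot a vm
  2 * (s.1.natAbs + s.2.natAbs + rdot a vr) ≤ 2 ^ q * rho

/-- one entry of `|I - A J|` plus its radius, in units `2^(-p-q)`; `cm, cr` = column of `J` -/
def entry (p q : ℕ) (diag : Bool) (a cm : List (ℤ × ℤ)) (cr : List ℕ) : ℕ :=
  let s := cdot a cm
  let d : ℤ := if diag then 2 ^ (p + q) else 0
  (d - s.1).natAbs + s.2.natAbs + rdot a cr

/-- sum of the entries of the row number `r` of `|I - A J|`; `k` is the number of the first column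
in the list of columns -/
def rowSum (p q r : ℕ) (a : List (ℤ × ℤ)) : ℕ → List (List (ℤ × ℤ) × List ℕ) → ℕ
  | _, [] => 0
  | k, c :: cs => entry p q (decide (k = r)) a c.1 c.2 + rowSum p q r a (k + 1) cs

/-- test of all the rows -/
def testRows (p q rho : ℕ) (vm : List (ℤ × ℤ)) (vr : List ℕ)
    (cols : List (List (ℤ × ℤ) × List ℕ)) : ℕ → List (List (ℤ × ℤ)) → Bool
  | _, [] => true
  | r, a :: as => testVal q rho vm vr a && decide (2 * rowSum p q r a 0 cols ≤ 2 ^ (p + q)) &&
      testRows p q rho vm vr cols (r + 1) as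

/-- The complete check.  `x0` = approximate zero (units `2^(-p)`), `rho` = radius (units `2^(-p)`),
`A` = approximate inverse of the Jacobian matrix (rows; units `2^(-q)`). -/
def check (p q rho N : ℕ) (eqs opens : List Ex) (x0 : List (ℤ × ℤ))
    (A : List (List (ℤ × ℤ))) : Bool :=
  decide (eqs.length = N) && decide (x0.length = N) && decide (A.length = N) &&
  A.all (fun a => decide (a.length = N)) &&
  (let vals := eqs.map (fun e => e.ball p (boxOf x0 0))
   let vm := vals.map (fun b => (b.re, b.im))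
   let vr := vals.map (fun b => b.rad)
   let cols := (List.range N).map (fun j =>
     let c := eqs.map (fun e => (der j e).ball p (boxOf x0 rho))
     (c.map (fun b => (b.re, b.im)), c.map (fun b => b.rad)))
   testRows p q rho vm vr cols 0 A) &&
  opens.all (fun e =>
    let b := e.ball p (boxOf x0 rho)
    decide (b.rad * b.rad < (b.re * b.re + b.im * b.im).natAbs))

end Pool.Agent.Helper54.CG.NK
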