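import Pool.Agent.Helper54.CG.NKDefs

/-! Goals of the certificate part (packets CG-NK...). -/

namespace Pool.Agent.Helper54.CG.NK

/-- NK-A, the abstract Krawczyk lemma.  Sup norm on `Fin N → ℂ`; `T x = x - A (P x)` maps the closed
ball of radius `ρ` around `c` to itself and is a contraction with constant 1/2:
`(T x - T y)_r = ∑_k (δ_rk - ∑_j A_rj J_jk)(x_k - y_k) - ∑_j A_rj (P x j - P y j - ∑_k J_jk (x_k - y_k))`
is at most `1/2 * ‖x - y‖` by `h2`; `‖T c - c‖ ≤ ρ/2` by `h4`.  Banach's fixed point theorem on a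
complete closed ball (`ContractingWith.exists_fixedPoint'`/`efixedPoint'`, or
`ContractingWith` on the subtype).  At the fixed point `A (P x) = 0`; `A` is injective: otherwise
`A J` would be singular, `A J w = 0`, `w ≠ 0`, but `‖w - A J w‖ ≤ 1/2 ‖w‖` (row sums), contradiction
(so `det (A J) ≠ 0`, `det A ≠ 0`). -/
def S_A : Prop := ∀ (N : ℕ) (P : (Fin N → ℂ) → (Fin N → ℂ)) (c : Fin N → ℂ) (ρ : ℝ)
  (J A : Matrix (Fin N) (Fin N) ℂ) (E : Fin N → Fin N → ℝ), 0 ≤ ρ → (∀ i j, 0 ≤ E i j) →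
  (∀ x y : Fin N → ℂ, (∀ i, ‖x i - c i‖ ≤ ρ) → (∀ i, ‖y i - c i‖ ≤ ρ) →
    ∀ i, ‖P x i - P y i - ∑ j, J i j * (x j - y j)‖ ≤ ∑ j, E i j * ‖x j - y j‖) →
  (∀ r, (∑ k, ‖(if r = k then (1 : ℂ) else 0) - ∑ j, A r j * J j k‖) +
    ∑ k, ∑ j, ‖A r j‖ * E j k ≤ 1 / 2) →
  (∀ r, ‖∑ j, A r j * P c j‖ ≤ ρ / 2) →
  ∃ x : Fin N → ℂ, (∀ i, ‖x i - c i‖ ≤ ρ) ∧ P x = 0

/-- NK-B, derivative of expressions and mean value inequality on a polydisc: `v, w` in the polydisc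
with centre `c` and radius `ρ`, equal for the indices `≥ N`.  Proof: first
`HasDerivAt (fun t : ℝ (or ℂ) => e.eval (w + t (v - w))) (∑_{j<N} (der j e).eval (w + t(v-w)) (v j - w j))`
by induction on `e` (smart constructors: `(addS e f).eval v = e.eval v + f.eval v` etc.), then the
mean value inequality for `t ↦ e.eval (w + t (v-w)) - t ∑_j m j (v j - w j)` on `[0,1]`
(`norm_image_sub_le_of_norm_deriv_le_segment_01'`); the points of the segment stay in the polydisc. -/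
def S_B : Prop := ∀ (N : ℕ) (e : Ex) (c : ℕ → ℂ) (ρ : ℝ) (v w : ℕ → ℂ) (m : ℕ → ℂ) (r : ℕ → ℝ),
  (∀ i, i < N → ‖v i - c i‖ ≤ ρ) → (∀ i, i < N → ‖w i - c i‖ ≤ ρ) →
  (∀ i, N ≤ i → v i = c i) → (∀ i, N ≤ i → w i = c i) →
  (∀ z : ℕ → ℂ, (∀ i, i < N → ‖z i - c i‖ ≤ ρ) → (∀ i, N ≤ i → z i = c i) →
    ∀ j, j < N → ‖(der j e).eval z - m j‖ ≤ r j) →
  ‖e.eval v - e.eval w - ∑ j ∈ Finset.range N, m j * (v j - w j)‖ ≤
    ∑ j ∈ Finset.range N, r j * ‖v j - w j‖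

/-- NK-C, soundness of the ball arithmetic. -/
def S_C : Prop := ∀ (p : ℕ) (X : ℕ → Ball) (v : ℕ → ℂ) (e : Ex), (∀ i, (X i).Mem p (v i)) →
  (e.ball p X).Mem p (e.eval v)

/-- entry of the matrix `A` -/
noncomputable def Am (q : ℕ) (A : List (List (ℤ × ℤ))) (r j : ℕ) : ℂ :=
  ((((A.getD r []).getD j (0, 0)).1 : ℂ) + (((A.getD r []).getD j (0, 0)).2 : ℂ) * Complex.I) / 2 ^ q

/-- ball of `∂P_j/∂x_k` over the box -/
def Jb (p rho : ℕ) (eqs : List Ex) (x0 : List (ℤ × ℤ)) (j k : ℕ) : Ball :=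
  (der k (eqs.getD j (.k 0 0))).ball p (boxOf x0 rho)

/-- ball of the value `P_j(x0)` -/
def Vb (p : ℕ) (eqs : List Ex) (x0 : List (ℤ × ℤ)) (j : ℕ) : Ball :=
  (eqs.getD j (.k 0 0)).ball p (boxOf x0 0)

/-- NK-D1, reading the boolean check as inequalities between sums (lists to `Finset.range N` sums;
`cdot` = sum of products, `rdot` ≥ sum of norms times radii, `|a + b I| ≤ |a| + |b|`; the test
`rad² < |re² + im²|` excludes zero). -/
def S_D1 : Prop := ∀ (p q rho N : ℕ) (eqs opens : List Ex) (x0 : List (ℤ × ℤ))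
  (A : List (List (ℤ × ℤ))), check p q rho N eqs opens x0 A = true →
  eqs.length = N ∧ x0.length = N ∧
  (∀ r, r < N → (∑ k ∈ Finset.range N, ‖(if r = k then (1 : ℂ) else 0) -
      ∑ j ∈ Finset.range N, Am q A r j * ((((Jb p rho eqs x0 j k).re : ℂ) +
        ((Jb p rho eqs x0 j k).im : ℂ) * Complex.I) / 2 ^ p)‖) +
      ∑ k ∈ Finset.range N, ∑ j ∈ Finset.range N,
        ‖Am q A r j‖ * (((Jb p rho eqs x0 j k).rad : ℝ) / 2 ^ p) ≤ 1 / 2) ∧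
  (∀ r, r < N → ∀ V : ℕ → ℂ, (∀ j, j < N → (Vb p eqs x0 j).Mem p (V j)) →
    ‖∑ j ∈ Finset.range N, Am q A r j * V j‖ ≤ ((rho : ℝ) / 2 ^ p) / 2) ∧
  (∀ e ∈ opens, ∀ z : ℂ, (e.ball p (boxOf x0 rho)).Mem p z → z ≠ 0)

/-- NK-D, soundness of the check (from S_A, S_B, S_C, S_D1).  From S_A (with `P x i = (eqs[i]).eval (x extended by 0)`,
`J i j` = centre of the ball of `der j eqs[i]` over the box, `E i j` its radius, `A` the matrix of
the list `A` divided by `2^q`), S_B, S_C.  The extension of `x : Fin N → ℂ` to `ℕ → ℂ` by `0` agrees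
with `centre p x0 i = 0` for `i ≥ N`. -/
def S_D : Prop := ∀ (p q rho N : ℕ) (eqs opens : List Ex) (x0 : List (ℤ × ℤ))
  (A : List (List (ℤ × ℤ))), check p q rho N eqs opens x0 A = true →
  ∃ v : ℕ → ℂ, (∀ i, i < N → ‖v i - centre p x0 i‖ ≤ (rho : ℝ) / 2 ^ p) ∧
    (∀ e ∈ eqs, e.eval v = 0) ∧ ∀ e ∈ opens, e.eval v ≠ 0

end Pool.Agent.Helper54.CG.NK
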